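import Pool.Agent.H70.EN.Targets

/-!
# enm SCV: the mean energy on the multiples of a prime number
-/

set_option autoImplicit false

namespace Pool.Agent.H61.ENM

open Finset Pool.Agent.H6.N4D Pool.Agent.H93.EB Pool.Agent.H70.EN

theorem scvLog {X : ℕ} (hX : 3 ≤ X) : 1 ≤ Real.log X := by
  have h1 : Real.exp 1 ≤ X := by
    have h2 := Real.exp_one_lt_d9
    have h3 : (3 : ℝ) ≤ X := by exact_mod_cast hX
    linarith
  calc (1 : ℝ) = Real.log (Real.exp 1) := (Real.log_exp 1).symm
    _ ≤ Real.log X := Real.log_le_log (Real.exp_pos 1) h1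

theorem pf_SCV (h1 : T_MBD) (h2 : T_PHI) (h3 : T_SCL) (h4 : T_LG1) (h5 : T_LDQ) : T_SCV := by
  refine ⟨12, by norm_num, ?_⟩
  intro X q N lam hX hL hq hqN
  have hlam : ∀ k, |lam k| ≤ 1 := fun k => by
    rcases hL.pm k with h | h <;> rw [h] <;> norm_num
  have hlog := scvLog hX
  have hN : (0 : ℝ) < N := by
    exact_mod_cast lt_of_lt_of_le hq.pos hqN
  have hqN' : (q : ℝ) / N ≤ 1 := by
    rw [div_le_one hN]
    exact_mod_cast hqN
  have hq0 : (0 : ℝ) ≤ (q : ℝ) / N := by positivity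
  have hlq : 0 ≤ Real.log q := Real.log_natCast_nonneg q
  set F : ℕ → ℝ := fun n => phi (Mq lam q N n) with hF
  set G : ℕ → ℝ := fun n => phi (M lam (N / q) (n / q)) with hG
  set H : ℕ → ℝ := fun n => phi (M lam (N / q) n) with hH
  have hd : ∀ n, |F n - G n| ≤ 6 * (q / N) := by
    intro n
    have a1 := h1 lam q N n hlam
    have a2 := h1 lam q (N / q) (n / q) hlam
    have a3 := h2.2.2.2.1 (Mq lam q N n) (M lam (N / q) (n / q)) (by linarith [a1.2.2.2])
      (by linarith [a2.2.1])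
    have a4 := h3 lam q N n hL hq hqN
    calc |F n - G n| ≤ 3 * |Mq lam q N n - M lam (N / q) (n / q)| := a3
      _ ≤ 3 * (2 * q / N) := by linarith
      _ = 6 * (q / N) := by ring
  have e1 : |lg X F - lg X G| ≤ 12 * (q / N * Real.log X) := by
    have b1 : lg X (fun n => F n - G n) ≤ lg X (fun _ => 6 * (q / N)) :=
      lg_mono fun n _ => (abs_le.mp (hd n)).2
    have b2 : lg X (fun _ => -(6 * ((q : ℝ) / N))) ≤ lg X (fun n => F n - G n) :=
      lg_mono fun n _ => (abs_le.mp (hd n)).1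
    have b3 := lg_one_le X
    rw [lg_sub] at b1 b2
    rw [lg_const] at b1 b2
    have b4 : 6 * ((q : ℝ) / N) * lg X (fun _ => 1) ≤ 6 * (q / N) * (2 * Real.log X) := by
      refine mul_le_mul_of_nonneg_left ?_ (by positivity)
      linarith
    rw [abs_le]
    constructor <;> nlinarith
  have e2 : |lg X G - lg X H| ≤ 5 * (1 + Real.log q) := by
    have := h5 X q H hq.one_lt.le fun n =>
      ⟨h2.2.2.1 _, h2.2.2.2.2 _ (h1 lam q (N / q) n hlam).2.1⟩
    exact this
  have e3 : |lg X F - lg X H| ≤ |lg X F - lg X G| + |lg X G - lg X H| := abs_sub_le _ _ _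
  nlinarith

end Pool.Agent.H61.ENM
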